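import Pool.Agent.Q38.EX.NrmA

set_option autoImplicit false
set_option linter.unusedSectionVars false

/-! # Project EX, job NRM, second part: unramified primes -/

namespace Pool.Agent.Q38.EX

open NumberField IsDedekindDomain Pool.Agent.Q5.BR Pool.Agent.Q92.AR Pool.Agent.Q20.EX

section res

variable {F M : Type} [Field F] [NumberField F] [Field M] [NumberField M] [Algebra F M]

/-- the norm and the trace of the residue fields are surjective -/
theorem res_surj (w : HeightOneSpectrum (𝓞 M)) (c : 𝓞 F) :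
    (∃ b : 𝓞 M, (∏ i ∈ Finset.range (rdeg F w), b ^ (Ideal.absNorm (w.under (𝓞 F)).asIdeal ^ i)) -
      algebraMap (𝓞 F) (𝓞 M) c ∈ w.asIdeal) ∧
    (∃ b : 𝓞 M, (∑ i ∈ Finset.range (rdeg F w), b ^ (Ideal.absNorm (w.under (𝓞 F)).asIdeal ^ i)) -
      algebraMap (𝓞 F) (𝓞 M) c ∈ w.asIdeal) := by
  classical
  set v := w.under (𝓞 F) with hv
  have hlo : w.asIdeal.LiesOver v.asIdeal := ⟨rfl⟩
  have hvm : v.asIdeal.IsMaximal := v.isMaximal
  have hwm : w.asIdeal.IsMaximal := w.isMaximal
  let _ : Field (𝓞 F ⧸ v.asIdeal) := Ideal.Quotient.field _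
  let _ : Field (𝓞 M ⧸ w.asIdeal) := Ideal.Quotient.field _
  have hfinF : Finite (𝓞 F ⧸ v.asIdeal) := Ideal.finiteQuotientOfFreeOfNeBot _ v.ne_bot
  have hfinM : Finite (𝓞 M ⧸ w.asIdeal) := Ideal.finiteQuotientOfFreeOfNeBot _ w.ne_bot
  have hq : Nat.card (𝓞 F ⧸ v.asIdeal) = Ideal.absNorm v.asIdeal := by
    rw [Ideal.absNorm_apply, Submodule.cardQuot_apply]
  have hf : Module.finrank (𝓞 F ⧸ v.asIdeal) (𝓞 M ⧸ w.asIdeal) = rdeg F w := by
    unfold rdeg
    rw [Ideal.inertiaDeg'_algebraMap]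
  have hcb : ∀ c : 𝓞 F, algebraMap (𝓞 F ⧸ v.asIdeal) (𝓞 M ⧸ w.asIdeal)
      (Ideal.Quotient.mk _ c) = Ideal.Quotient.mk _ (algebraMap (𝓞 F) (𝓞 M) c) := fun c =>
    Ideal.Quotient.algebraMap_mk_of_liesOver _ _ _
  constructor
  · obtain ⟨b', hb'⟩ := FiniteField.norm_surjective (𝓞 F ⧸ v.asIdeal) (𝓞 M ⧸ w.asIdeal)
      (Ideal.Quotient.mk _ c)
    obtain ⟨b, rfl⟩ := Ideal.Quotient.mk_surjective b'
    refine ⟨b, ?_⟩
    have h1 := FiniteField.algebraMap_norm_eq_prod_pow (𝓞 F ⧸ v.asIdeal) (𝓞 M ⧸ w.asIdeal)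
      (Ideal.Quotient.mk _ b)
    rw [hb', hcb, hq, hf] at h1
    rw [← Ideal.Quotient.eq, map_prod, h1]
    exact Finset.prod_congr rfl fun i _ => map_pow _ _ _
  · obtain ⟨b', hb'⟩ := Algebra.trace_surjective (𝓞 F ⧸ v.asIdeal) (𝓞 M ⧸ w.asIdeal)
      (Ideal.Quotient.mk _ c)
    obtain ⟨b, rfl⟩ := Ideal.Quotient.mk_surjective b'
    refine ⟨b, ?_⟩
    have h1 := FiniteField.algebraMap_trace_eq_sum_pow (𝓞 F ⧸ v.asIdeal) (𝓞 M ⧸ w.asIdeal)
      (Ideal.Quotient.mk _ b)
    rw [hb', hcb, hq, hf] at h1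
    rw [← Ideal.Quotient.eq, map_sum, h1]
    exact Finset.sum_congr rfl fun i _ => map_pow _ _ _

end res

section dec

variable {F M : Type} [Field F] [NumberField F] [Field M] [NumberField M] [Algebra F M]
  [IsGalois F M]

/-- a Frobenius element at `w` fixes `w` -/
theorem act_frob {w : HeightOneSpectrum (𝓞 M)} {g : M ≃ₐ[F] M}
    (hg : ∀ x : 𝓞 M, w.valuation M (g (x : M) -
      (x : M) ^ Ideal.absNorm (w.under (𝓞 F)).asIdeal) < 1) :
    Pool.Agent.TeamU.act g w = w := by
  have hq : Ideal.absNorm (w.under (𝓞 F)).asIdeal ≠ 0 := by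
    rw [Ne, Ideal.absNorm_eq_zero_iff]
    exact (w.under (𝓞 F)).ne_bot
  rw [← act_inv_iff]
  have hle : w.asIdeal ≤ (Pool.Agent.TeamU.act g⁻¹ w).asIdeal := by
    intro x hx
    rw [← (Pool.Agent.TeamU.act g⁻¹ w).valuation_lt_one_iff_mem (K := M)]
    have h1 : (Pool.Agent.TeamU.act g⁻¹ w).valuation M (algebraMap (𝓞 M) M x) =
        w.valuation M (g (x : M)) := (val_g g w _).symm
    rw [h1]
    have h2 : g (x : M) = (g (x : M) - (x : M) ^ Ideal.absNorm (w.under (𝓞 F)).asIdeal) +
        (x : M) ^ Ideal.absNorm (w.under (𝓞 F)).asIdeal := by ring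
    rw [h2]
    refine (Valuation.map_add _ _ _).trans_lt (max_lt (hg x) ?_)
    rw [map_pow]
    have h3 : w.valuation M (x : M) < 1 := (w.valuation_lt_one_iff_mem (K := M) x).2 hx
    exact pow_lt_one₀ zero_le h3 hq
  have h1 := w.isMaximal.eq_of_le (Pool.Agent.TeamU.act g⁻¹ w).isPrime.ne_top hle
  exact (HeightOneSpectrum.ext h1).symm

/-- the order of the decomposition group at an unramified prime -/
theorem card_Dec {w : HeightOneSpectrum (𝓞 M)} (hu : Unramified M (w.under (𝓞 F))) {g : M ≃ₐ[F] M}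
    (hg : IsFrobenius (w.under (𝓞 F)) g) : (Dec F w).card = rdeg F w := by
  classical
  set v := w.under (𝓞 F) with hv
  have hall : ∀ w' ∈ above M v, rdeg F w' = rdeg F w := by
    intro w' hw'
    rw [mem_above] at hw'
    rw [← Pool.Agent.Q225.AR.fr4 F M w g hu hg, ← Pool.Agent.Q225.AR.fr4 F M w' g (by rwa [hw'])
      (by rwa [hw'])]
  have h1 : (above M v).card * rdeg F w = Fintype.card (M ≃ₐ[F] M) := by
    have h2 := sum_rdeg hu
    rw [Finset.sum_congr rfl hall, Finset.sum_const, smul_eq_mul] at h2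
    rw [h2, ← Nat.card_eq_fintype_card, IsGalois.card_aut_eq_finrank]
  have h3 : Fintype.card (M ≃ₐ[F] M) = (above M v).card * (Dec F w).card := by
    rw [← Finset.card_univ]
    rw [Finset.card_eq_sum_card_fiberwise (f := fun h => Pool.Agent.TeamU.act h w)
      (t := above M v) (fun h _ => by
        rw [Finset.mem_coe, mem_above]
        exact under_act h w)]
    rw [Finset.sum_congr rfl (g := fun _ => (Dec F w).card), Finset.sum_const, smul_eq_mul]
    intro w' hw'
    rw [mem_above] at hw'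
    obtain ⟨h0, hh0⟩ := Pool.Agent.TeamU.exists_act (k := F) (P := w) (Q := w') (v := v)
      (over_under w) (by rw [← hw']; exact over_under w')
    refine Finset.card_bij' (fun h _ => h0⁻¹ * h) (fun h _ => h0 * h) ?_ ?_ ?_ ?_
    · intro h hh
      rw [Finset.mem_filter] at hh
      rw [mem_Dec, Pool.Agent.TeamU.act_mul, hh.2, ← hh0, ← Pool.Agent.TeamU.act_mul,
        inv_mul_cancel, Pool.Agent.TeamU.act_one]
    · intro h hh
      rw [mem_Dec] at hh
      rw [Finset.mem_filter]
      exact ⟨Finset.mem_univ _, by rw [Pool.Agent.TeamU.act_mul, hh, hh0]⟩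
    · intro h _
      exact mul_inv_cancel_left h0 h
    · intro h _
      exact inv_mul_cancel_left h0 h
  have h4 : 0 < (above M v).card := Finset.card_pos.2 ⟨w, mem_above.2 rfl⟩
  exact Nat.eq_of_mul_eq_mul_left h4 (by rw [← h3, h1])

/-- the decomposition group is generated by the Frobenius element -/
theorem Dec_eq {w : HeightOneSpectrum (𝓞 M)} (hu : Unramified M (w.under (𝓞 F))) {g : M ≃ₐ[F] M}
    (hg : IsFrobenius (w.under (𝓞 F)) g) (hgw : ∀ x : 𝓞 M, w.valuation M (g (x : M) -
      (x : M) ^ Ideal.absNorm (w.under (𝓞 F)).asIdeal) < 1) :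
    Set.InjOn (fun i : ℕ => g ^ i) (Finset.range (rdeg F w) : Set ℕ) ∧
    ∀ h, h ∈ Dec F w ↔ ∃ i ∈ Finset.range (rdeg F w), g ^ i = h := by
  classical
  have ho := Pool.Agent.Q225.AR.fr4 F M w g hu hg
  have hinj : Set.InjOn (fun i : ℕ => g ^ i) (Finset.range (rdeg F w) : Set ℕ) := by
    intro i hi j hj hij
    rw [Finset.coe_range, Set.mem_Iio] at hi hj
    exact pow_injOn_Iio_orderOf (by rw [Set.mem_Iio, ho]; exact hi)
      (by rw [Set.mem_Iio, ho]; exact hj) hij
  refine ⟨hinj, ?_⟩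
  have hact : ∀ i : ℕ, Pool.Agent.TeamU.act (g ^ i) w = w := by
    intro i
    induction i with
    | zero => rw [pow_zero, Pool.Agent.TeamU.act_one]
    | succ i ih => rw [pow_succ, Pool.Agent.TeamU.act_mul, act_frob hgw, ih]
  have hsub : (Finset.range (rdeg F w)).image (fun i : ℕ => g ^ i) ⊆ Dec F w := by
    intro h hh
    obtain ⟨i, -, rfl⟩ := Finset.mem_image.1 hh
    exact mem_Dec.2 (hact i)
  have heq := Finset.eq_of_subset_of_card_le hsub (by
    rw [card_Dec hu hg, Finset.card_image_of_injOn hinj, Finset.card_range])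
  intro h
  rw [← heq, Finset.mem_image]

theorem prod_Dec {w : HeightOneSpectrum (𝓞 M)} (hu : Unramified M (w.under (𝓞 F))) {g : M ≃ₐ[F] M}
    (hg : IsFrobenius (w.under (𝓞 F)) g) (hgw : ∀ x : 𝓞 M, w.valuation M (g (x : M) -
      (x : M) ^ Ideal.absNorm (w.under (𝓞 F)).asIdeal) < 1) {S : Type} [CommMonoid S]
    (z : (M ≃ₐ[F] M) → S) :
    ∏ h ∈ Dec F w, z h = ∏ i ∈ Finset.range (rdeg F w), z (g ^ i) := by
  classical
  obtain ⟨h1, h2⟩ := Dec_eq hu hg hgw
  have h3 : Dec F w = (Finset.range (rdeg F w)).image (fun i : ℕ => g ^ i) := by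
    ext h
    rw [h2, Finset.mem_image]
  rw [h3, Finset.prod_image h1]

theorem sum_Dec {w : HeightOneSpectrum (𝓞 M)} (hu : Unramified M (w.under (𝓞 F))) {g : M ≃ₐ[F] M}
    (hg : IsFrobenius (w.under (𝓞 F)) g) (hgw : ∀ x : 𝓞 M, w.valuation M (g (x : M) -
      (x : M) ^ Ideal.absNorm (w.under (𝓞 F)).asIdeal) < 1) {S : Type} [AddCommMonoid S]
    (z : (M ≃ₐ[F] M) → S) :
    ∑ h ∈ Dec F w, z h = ∑ i ∈ Finset.range (rdeg F w), z (g ^ i) := by
  classical
  obtain ⟨h1, h2⟩ := Dec_eq hu hg hgw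
  have h3 : Dec F w = (Finset.range (rdeg F w)).image (fun i : ℕ => g ^ i) := by
    ext h
    rw [h2, Finset.mem_image]
  rw [h3, Finset.sum_image h1]

/-- powers of the Frobenius element -/
theorem frob_pow {w : HeightOneSpectrum (𝓞 M)} {g : M ≃ₐ[F] M}
    (hgw : ∀ x : 𝓞 M, w.valuation M (g (x : M) -
      (x : M) ^ Ideal.absNorm (w.under (𝓞 F)).asIdeal) < 1) (i : ℕ) (x : 𝓞 M) :
    w.valuation M ((g ^ i) (x : M) - (x : M) ^ (Ideal.absNorm (w.under (𝓞 F)).asIdeal ^ i)) < 1 := by
  set q := Ideal.absNorm (w.under (𝓞 F)).asIdeal with hq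
  have hact := act_frob hgw
  have hvg : ∀ z : M, w.valuation M (g z) = w.valuation M z := by
    intro z
    rw [val_g, act_inv_iff.2 hact]
  induction i with
  | zero => rw [pow_zero, pow_zero, pow_one, AlgEquiv.one_apply, sub_self, map_zero]; exact one_pos
  | succ i ih =>
    have h1 : (g ^ (i + 1)) (x : M) - (x : M) ^ (q ^ (i + 1)) =
        g ((g ^ i) (x : M) - (x : M) ^ (q ^ i)) +
        (g ((x ^ (q ^ i) : 𝓞 M) : M) - ((x ^ (q ^ i) : 𝓞 M) : M) ^ q) := by
      have h2 : ((x ^ (q ^ i) : 𝓞 M) : M) = (x : M) ^ (q ^ i) := rfl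
      rw [h2, map_sub, pow_succ', AlgEquiv.mul_apply, ← pow_mul, ← pow_succ]
      ring
    rw [h1]
    refine (Valuation.map_add _ _ _).trans_lt (max_lt ?_ (hgw _))
    rw [hvg]
    exact ih

end dec

section unr

variable {F M : Type} [Field F] [NumberField F] [Field M] [NumberField M] [Algebra F M]
  [IsGalois F M]

theorem lt_one_iff_le_exp (y : WithZero (Multiplicative ℤ)) :
    y < 1 ↔ y ≤ WithZero.exp (-1) := by
  have h : (WithZero.exp (0 : ℤ)) = 1 := WithZero.exp_zero
  rcases eq_or_ne y 0 with rfl | hy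
  · simp
  · rw [← WithZero.exp_log hy, ← h, WithZero.exp_lt_exp, WithZero.exp_le_exp]
    omega

/-- local solutions at unramified primes -/
theorem exists_unr {w : HeightOneSpectrum (𝓞 M)} (hu : Unramified M (w.under (𝓞 F)))
    {g : M ≃ₐ[F] M} (hg : IsFrobenius (w.under (𝓞 F)) g)
    (hgw : ∀ x : 𝓞 M, w.valuation M (g (x : M) -
      (x : M) ^ Ideal.absNorm (w.under (𝓞 F)).asIdeal) < 1) (x : Fˣ)
    (hx : (w.under (𝓞 F)).valuation F (x : F) = 1) (k : ℕ) :
    ∃ u : Mˣ, w.valuation M (u : M) = 1 ∧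
      w.valuation M (algebraMap F M (x : F) / (∏ h ∈ Dec F w, h (u : M)) - 1) ≤
        WithZero.exp (-(k + 1 : ℤ)) := by
  classical
  set W := w.valuation M with hW
  set v := w.under (𝓞 F) with hv
  have hWO : ∀ z : 𝓞 M, W (z : M) ≤ 1 := fun z => w.valuation_le_one z
  have hWh : ∀ h ∈ Dec F w, ∀ z : M, W (h z) = W z := by
    intro h hh z
    rw [hW, val_g, act_inv_iff.2 (mem_Dec.1 hh)]
  have hWx : W (algebraMap F M (x : F)) = 1 := by
    rw [hW, Pool.Agent.TeamU.val_over (over_under (F := F) w), hx, one_pow]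
  -- products and sums modulo `w`
  have hprodd : ∀ b : 𝓞 M, W ((∏ h ∈ Dec F w, h (b : M)) -
      ((∏ i ∈ Finset.range (rdeg F w), b ^ (Ideal.absNorm v.asIdeal ^ i) : 𝓞 M) : M)) < 1 := by
    intro b
    rw [prod_Dec hu hg hgw]
    have h1 : ((∏ i ∈ Finset.range (rdeg F w), b ^ (Ideal.absNorm v.asIdeal ^ i) : 𝓞 M) : M) =
        ∏ i ∈ Finset.range (rdeg F w), (b : M) ^ (Ideal.absNorm v.asIdeal ^ i) :=
      (map_prod (algebraMap (𝓞 M) M) _ _).trans (Finset.prod_congr rfl fun i _ =>
        map_pow (algebraMap (𝓞 M) M) _ _)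
    rw [h1]
    have key : ∀ s : Finset ℕ, W ((∏ i ∈ s, (g ^ i) (b : M)) -
        ∏ i ∈ s, (b : M) ^ (Ideal.absNorm v.asIdeal ^ i)) < 1 := by
      intro s
      induction s using Finset.induction_on with
      | empty => rw [Finset.prod_empty, Finset.prod_empty, sub_self, map_zero]; exact one_pos
      | insert i s hi ih =>
        rw [Finset.prod_insert hi, Finset.prod_insert hi]
        have h2 : (g ^ i) (b : M) * ∏ i ∈ s, (g ^ i) (b : M) -
            (b : M) ^ (Ideal.absNorm v.asIdeal ^ i) *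
              ∏ i ∈ s, (b : M) ^ (Ideal.absNorm v.asIdeal ^ i) =
            (g ^ i) (b : M) * ((∏ i ∈ s, (g ^ i) (b : M)) -
              ∏ i ∈ s, (b : M) ^ (Ideal.absNorm v.asIdeal ^ i)) +
            ((g ^ i) (b : M) - (b : M) ^ (Ideal.absNorm v.asIdeal ^ i)) *
              ∏ i ∈ s, (b : M) ^ (Ideal.absNorm v.asIdeal ^ i) := by ring
        rw [h2]
        refine (Valuation.map_add _ _ _).trans_lt (max_lt ?_ ?_)
        · rw [map_mul]
          have h3 : W ((g ^ i) (b : M)) ≤ 1 := by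
            rw [hW, val_g]
            exact (Pool.Agent.TeamU.act (g ^ i)⁻¹ w).valuation_le_one b
          exact (mul_le_of_le_one_left' h3).trans_lt ih
        · rw [map_mul]
          have h3 : W (∏ i ∈ s, (b : M) ^ (Ideal.absNorm v.asIdeal ^ i)) ≤ 1 := by
            rw [map_prod]
            refine Finset.prod_le_one' fun j _ => ?_
            rw [map_pow]
            exact pow_le_one' (hWO b) _
          exact (mul_le_of_le_one_right' h3).trans_lt (frob_pow hgw i b)
    exact key _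
  have hsumm : ∀ b : 𝓞 M, W ((∑ h ∈ Dec F w, h (b : M)) -
      ((∑ i ∈ Finset.range (rdeg F w), b ^ (Ideal.absNorm v.asIdeal ^ i) : 𝓞 M) : M)) < 1 := by
    intro b
    rw [sum_Dec hu hg hgw]
    have h1 : ((∑ i ∈ Finset.range (rdeg F w), b ^ (Ideal.absNorm v.asIdeal ^ i) : 𝓞 M) : M) =
        ∑ i ∈ Finset.range (rdeg F w), (b : M) ^ (Ideal.absNorm v.asIdeal ^ i) :=
      (map_sum (algebraMap (𝓞 M) M) _ _).trans (Finset.sum_congr rfl fun i _ =>
        map_pow (algebraMap (𝓞 M) M) _ _)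
    rw [h1, ← Finset.sum_sub_distrib]
    exact Valuation.map_sum_lt _ one_ne_zero fun i _ => frob_pow hgw i b
  -- an element of trace near `1`
  obtain ⟨b, hb⟩ := (res_surj (F := F) w 1).2
  have hb1 : W ((∑ h ∈ Dec F w, h (b : M)) - 1) < 1 := by
    have h1 : (∑ h ∈ Dec F w, h (b : M)) - 1 = ((∑ h ∈ Dec F w, h (b : M)) -
        ((∑ i ∈ Finset.range (rdeg F w), b ^ (Ideal.absNorm v.asIdeal ^ i) : 𝓞 M) : M)) +
        (((∑ i ∈ Finset.range (rdeg F w), b ^ (Ideal.absNorm v.asIdeal ^ i)) -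
          algebraMap (𝓞 F) (𝓞 M) 1 : 𝓞 M) : M) := by
      have h2 : (((∑ i ∈ Finset.range (rdeg F w), b ^ (Ideal.absNorm v.asIdeal ^ i)) -
          algebraMap (𝓞 F) (𝓞 M) 1 : 𝓞 M) : M) =
          ((∑ i ∈ Finset.range (rdeg F w), b ^ (Ideal.absNorm v.asIdeal ^ i) : 𝓞 M) : M) - 1 := by
        rw [map_one]
        exact (map_sub (algebraMap (𝓞 M) M) _ _).trans (by rw [map_one (algebraMap (𝓞 M) M)])
      rw [h2]
      ring
    rw [h1]
    exact (Valuation.map_add _ _ _).trans_lt (max_lt (hsumm b)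
      ((w.valuation_lt_one_iff_mem (K := M) _).2 hb))
  induction k with
  | zero =>
    -- an integral element near `x`
    obtain ⟨c, hc⟩ := v.exists_valuation_sub_lt_of_integer (K := F) (x := (x : F)) hx.le
      (1 : (WithZero (Multiplicative ℤ))ˣ)
    rw [Units.val_one] at hc
    obtain ⟨u, hu1⟩ := (res_surj (F := F) w c).1
    have hc2 : W (algebraMap F M (c : F) - algebraMap F M (x : F)) < 1 := by
      rw [← map_sub, hW, Pool.Agent.TeamU.val_over (over_under (F := F) w)]
      exact pow_lt_one₀ zero_le hc (ram_ne_zero w)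
    set P : M := ∏ h ∈ Dec F w, h (u : M) with hP
    have h1 : W (P - algebraMap F M (x : F)) < 1 := by
      have h2 : P - algebraMap F M (x : F) = (P -
          ((∏ i ∈ Finset.range (rdeg F w), u ^ (Ideal.absNorm v.asIdeal ^ i) : 𝓞 M) : M)) +
          ((((∏ i ∈ Finset.range (rdeg F w), u ^ (Ideal.absNorm v.asIdeal ^ i)) -
            algebraMap (𝓞 F) (𝓞 M) c : 𝓞 M) : M) +
          (algebraMap F M (c : F) - algebraMap F M (x : F))) := by
        have h3 : (((∏ i ∈ Finset.range (rdeg F w), u ^ (Ideal.absNorm v.asIdeal ^ i)) -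
            algebraMap (𝓞 F) (𝓞 M) c : 𝓞 M) : M) =
            ((∏ i ∈ Finset.range (rdeg F w), u ^ (Ideal.absNorm v.asIdeal ^ i) : 𝓞 M) : M) -
              algebraMap F M (c : F) := map_sub _ _ _
        rw [h3]
        ring
      rw [h2]
      exact (Valuation.map_add _ _ _).trans_lt (max_lt (hprodd u)
        ((Valuation.map_add _ _ _).trans_lt (max_lt
          ((w.valuation_lt_one_iff_mem (K := M) _).2 hu1) hc2)))
    have hWP : W P = 1 := by
      have h2 := Valuation.map_add_eq_of_lt_right W (x := P - algebraMap F M (x : F))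
        (y := algebraMap F M (x : F)) (by rwa [hWx])
      rw [sub_add_cancel, hWx] at h2
      exact h2
    have hWu : W (u : M) = 1 := by
      have h2 : W P = W (u : M) ^ (Dec F w).card := by
        rw [hP, map_prod, Finset.prod_congr rfl fun h hh => hWh h hh (u : M), Finset.prod_const]
      rw [h2] at hWP
      have h3 : (Dec F w).card ≠ 0 := by
        rw [card_Dec hu hg]
        exact (rdeg_pos w).ne'
      exact (pow_eq_one_iff.1 hWP).resolve_right h3
    have hu0 : (u : M) ≠ 0 := by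
      intro h
      rw [h, map_zero] at hWu
      exact zero_ne_one hWu
    refine ⟨Units.mk0 _ hu0, hWu, ?_⟩
    rw [Units.val_mk0, ← hP]
    have hP0 : P ≠ 0 := by
      intro h
      rw [h, map_zero] at hWP
      exact zero_ne_one hWP
    have h2 : algebraMap F M (x : F) / P - 1 = -((P - algebraMap F M (x : F)) / P) := by
      field_simp
      ring
    rw [h2, Valuation.map_neg, map_div₀, hWP, div_one]
    have h3 : (-(((0 : ℕ) : ℤ) + 1)) = -1 := by norm_num
    rw [h3]
    exact (lt_one_iff_le_exp _).1 h1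
  | succ k ih =>
    obtain ⟨u, hWu, hu1⟩ := ih
    set P : M := ∏ h ∈ Dec F w, h (u : M) with hP
    set δ : M := algebraMap F M (x : F) / P - 1 with hδ
    have hWP : W P = 1 := by
      rw [hP, map_prod, Finset.prod_congr rfl fun h hh => hWh h hh (u : M), Finset.prod_const,
        hWu, one_pow]
    have hP0 : P ≠ 0 := by
      intro h
      rw [h, map_zero] at hWP
      exact zero_ne_one hWP
    have hexp : WithZero.exp (-((k : ℤ) + 1)) ≤ WithZero.exp (-1 : ℤ) :=
      WithZero.exp_le_exp.2 (by omega)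
    have hδ1 : W δ < 1 := (lt_one_iff_le_exp _).2 (hu1.trans hexp)
    -- `P` and `δ` are fixed by the decomposition group
    have hPfix : ∀ h ∈ Dec F w, h P = P := by
      intro h hh
      rw [hP, map_prod]
      refine Finset.prod_bij' (fun h' _ => h * h') (fun h' _ => h⁻¹ * h') ?_ ?_ ?_ ?_ ?_
      · intro h' hh'
        rw [mem_Dec] at hh hh' ⊢
        rw [Pool.Agent.TeamU.act_mul, hh', hh]
      · intro h' hh'
        rw [mem_Dec] at hh hh' ⊢
        rw [Pool.Agent.TeamU.act_mul, hh', act_inv_iff.2 hh]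
      · intro h' _
        exact inv_mul_cancel_left h h'
      · intro h' _
        exact mul_inv_cancel_left h h'
      · intro h' _
        rfl
    have hδfix : ∀ h ∈ Dec F w, h δ = δ := by
      intro h hh
      rw [hδ, map_sub, map_div₀, hPfix h hh, h.commutes, map_one]
    have hbδ : W ((b : M) * δ) < 1 := by
      rw [map_mul]
      exact (mul_le_of_le_one_left' (hWO b)).trans_lt hδ1
    have h10 : W (1 + (b : M) * δ) = 1 := by
      have h2 := Valuation.map_add_eq_of_lt_left W (x := (1 : M)) (y := (b : M) * δ)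
        (by rwa [map_one])
      rw [h2, map_one]
    have h1ne : (1 + (b : M) * δ) ≠ 0 := by
      intro h
      rw [h, map_zero] at h10
      exact zero_ne_one h10
    -- the product of the `1 + δ h b`
    have hprod1 : ∀ s : Finset (M ≃ₐ[F] M), s ⊆ Dec F w →
        W ((∏ h ∈ s, (1 + h (b : M) * δ)) - (1 + (∑ h ∈ s, h (b : M)) * δ)) ≤ W δ * W δ := by
      intro s
      induction s using Finset.induction_on with
      | empty =>
        intro _
        rw [Finset.prod_empty, Finset.sum_empty, zero_mul, add_zero, sub_self, map_zero]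
        exact zero_le
      | insert h s hh ih2 =>
        intro hs
        have hs' : s ⊆ Dec F w := fun y hy => hs (Finset.mem_insert_of_mem hy)
        rw [Finset.prod_insert hh, Finset.sum_insert hh]
        have h3 : (1 + h (b : M) * δ) * (∏ h ∈ s, (1 + h (b : M) * δ)) -
            (1 + (h (b : M) + ∑ h ∈ s, h (b : M)) * δ) =
            (1 + h (b : M) * δ) * ((∏ h ∈ s, (1 + h (b : M) * δ)) -
              (1 + (∑ h ∈ s, h (b : M)) * δ)) + (h (b : M) * ∑ h ∈ s, h (b : M)) * (δ * δ) := by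
          ring
        have hhb : ∀ h' ∈ Dec F w, W (h' (b : M)) ≤ 1 := fun h' hh' => by
          rw [hWh h' hh']
          exact hWO b
        have hhD := hs (Finset.mem_insert_self _ _)
        rw [h3]
        refine (Valuation.map_add _ _ _).trans (max_le ?_ ?_)
        · rw [map_mul]
          refine (mul_le_of_le_one_left' ?_).trans (ih2 hs')
          refine (Valuation.map_add _ _ _).trans (max_le (by rw [map_one]) ?_)
          rw [map_mul]
          exact mul_le_one' (hhb h hhD) hδ1.le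
        · rw [map_mul, map_mul W δ δ]
          refine mul_le_of_le_one_left' ?_
          rw [map_mul]
          refine mul_le_one' (hhb h hhD) ?_
          exact Valuation.map_sum_le _ fun h' hh' => hhb h' (hs' hh')
    have hP1 := hprod1 (Dec F w) (Finset.Subset.refl _)
    set R : M := ∏ h ∈ Dec F w, (1 + h (b : M) * δ) with hR
    set T : M := ∑ h ∈ Dec F w, h (b : M) with hT
    have hlast : W (R - (1 + δ)) ≤ WithZero.exp (-(((k + 1 : ℕ) : ℤ) + 1)) := by
      have h2 : R - (1 + δ) = (R - (1 + T * δ)) + (T - 1) * δ := by ring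
      rw [h2]
      have hexp2 : WithZero.exp (-(((k + 1 : ℕ) : ℤ) + 1)) =
          WithZero.exp (-1 : ℤ) * WithZero.exp (-((k : ℤ) + 1)) := by
        rw [← WithZero.exp_add]
        congr 1
        push_cast
        ring
      rw [hexp2]
      refine (Valuation.map_add _ _ _).trans (max_le ?_ ?_)
      · exact hP1.trans (mul_le_mul' ((lt_one_iff_le_exp _).1 hδ1) hu1)
      · rw [map_mul]
        exact mul_le_mul' ((lt_one_iff_le_exp _).1 hb1) hu1
    have hWR : W R = 1 := by
      have h2 : W (1 + δ) = 1 := by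
        have h3 := Valuation.map_add_eq_of_lt_left W (x := (1 : M)) (y := δ) (by rwa [map_one])
        rw [h3, map_one]
      have h3 : W (R - (1 + δ)) < W (1 + δ) := by
        rw [h2]
        exact (lt_one_iff_le_exp _).2 (hlast.trans (WithZero.exp_le_exp.2 (by push_cast; omega)))
      have h4 := Valuation.map_add_eq_of_lt_right W h3
      rw [sub_add_cancel, h2] at h4
      exact h4
    have hR0 : R ≠ 0 := by
      intro h
      rw [h, map_zero] at hWR
      exact zero_ne_one hWR
    refine ⟨u * Units.mk0 _ h1ne, ?_, ?_⟩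
    · rw [Units.val_mul, Units.val_mk0, map_mul, hWu, h10, one_mul]
    · have h2 : (∏ h ∈ Dec F w, h ((u * Units.mk0 _ h1ne : Mˣ) : M)) = P * R := by
        rw [hP, hR, ← Finset.prod_mul_distrib]
        refine Finset.prod_congr rfl fun h hh => ?_
        rw [Units.val_mul, Units.val_mk0, map_mul, map_add, map_one, map_mul, hδfix h hh]
      rw [h2]
      have h3 : algebraMap F M (x : F) = (1 + δ) * P := by
        rw [hδ]
        field_simp
        ring
      have h4 : algebraMap F M (x : F) / (P * R) - 1 = -((R - (1 + δ)) / R) := by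
        rw [h3]
        field_simp
        ring
      rw [h4, Valuation.map_neg, map_div₀, hWR, div_one]
      exact hlast

end unr

/-- **Job NRM.** -/
theorem nrm : S_NRM := by
  intro F M _ _ _ _ _ _ N x hN h
  classical
  refine glue hN x fun v hv => ?_
  have hNw : ∀ w : HeightOneSpectrum (𝓞 M), w.under (𝓞 F) = v → (N : 𝓞 M) ∈ w.asIdeal := by
    intro w hw
    rw [← Pool.Agent.Q125.AR.mem_under (F := F), hw]
    exact hv
  rcases h v hv with h1 | h1 | ⟨h1, h2⟩
  · refine ⟨1, ?_, fun _ w _ => ?_⟩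
    · rw [map_one, Units.val_one, div_one]
      exact h1
    · rw [Units.val_one, map_one]
  · obtain ⟨w, hw⟩ := exists_above (M := M) v
    have hD : ∀ u : Mˣ, (∏ g ∈ Dec F w, g (u : M)) = (u : M) := by
      intro u
      have : Dec F w = {1} := by
        ext g
        rw [mem_Dec, Finset.mem_singleton]
        exact ⟨fun hg => h1 w hw g hg, fun hg => by rw [hg, Pool.Agent.TeamU.act_one]⟩
      rw [this, Finset.prod_singleton]
      rfl
    obtain ⟨y, hy1, hy2⟩ := local_sol hN x w (hNw w hw) (up F M x) (by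
      rw [hD]
      have : ((up F M x : Mˣ) : M) = algebraMap F M (x : F) := rfl
      rw [this, div_self (by
        rw [Ne, map_eq_zero]
        exact x.ne_zero), sub_self, map_zero]
      exact zero_le)
    rw [hw] at hy1 hy2
    refine ⟨y, hy1, fun hx => hy2 ?_⟩
    have : ((up F M x : Mˣ) : M) = algebraMap F M (x : F) := rfl
    rw [this, Pool.Agent.TeamU.val_over (over_under (F := F) w), hw, hx, one_pow]
  · obtain ⟨w0, hw0m, hw0v, hw0⟩ := frob_spec (M := M) v
    have hw00 : w0 ≠ ⊥ := by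
      rintro rfl
      apply v.ne_bot
      rw [← hw0v, ← RingHom.ker_eq_comap_bot]
      exact (RingHom.injective_iff_ker_eq_bot _).1 (FaithfulSMul.algebraMap_injective (𝓞 F) (𝓞 M))
    obtain ⟨w, hw⟩ : ∃ w : HeightOneSpectrum (𝓞 M), w.asIdeal = w0 := ⟨⟨w0, hw0m.isPrime, hw00⟩, rfl⟩
    have hwv : w.under (𝓞 F) = v := by
      apply HeightOneSpectrum.ext
      rw [← hw0v, ← hw]
      rfl
    subst hwv
    have hgw : ∀ z : 𝓞 M, w.valuation M (frob M (w.under (𝓞 F)) (z : M) -
        (z : M) ^ Ideal.absNorm (w.under (𝓞 F)).asIdeal) < 1 := by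
      intro z
      obtain ⟨y, hy, hyz⟩ := hw0 z
      rw [← hyz]
      refine (w.valuation_lt_one_iff_mem (K := M) y).2 ?_
      rw [hw]
      exact hy
    obtain ⟨k, hk⟩ := exists_exp_le (val_nat_ne_zero (K := M) hN w)
    obtain ⟨u, hu1, hu2⟩ := exists_unr h1 (frob_spec _) hgw x h2 k
    obtain ⟨y, hy1, hy2⟩ := local_sol hN x w (hNw w rfl) u
      (hu2.trans ((WithZero.exp_le_exp.2 (by omega)).trans hk))
    exact ⟨y, hy1, fun _ => hy2 hu1⟩

end Pool.Agent.Q38.EX
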