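import Pool.Agent.Q20.EX.Stm

set_option autoImplicit false

/-! # Project EX, job SPL: Kummer extensions, primes which split completely -/

namespace Pool.Agent.Q38.EX

open NumberField IsDedekindDomain Pool.Agent.Q5.BR Pool.Agent.Q92.AR Pool.Agent.Q20.EX

section val

variable {M : Type*} [Field M] {Γ : Type*} [LinearOrderedCommGroupWithZero Γ] (W : Valuation M Γ)

theorem val_root {n : ℕ} (hn : 0 < n) {η : M} (hη : η ^ n = 1) : W η = 1 := by
  have h : W η ^ n = 1 := by rw [← map_pow, hη, map_one]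
  exact (pow_eq_one_iff.1 h).resolve_right (by omega)

open Polynomial in
theorem prod_sub_roots {n : ℕ} (hn : 0 < n) {ζ : M} (hζ : IsPrimitiveRoot ζ n) (s : M) :
    ∏ η ∈ nthRootsFinset n (1 : M), (s - η) = s ^ n - 1 := by
  have h := congrArg (eval s) (X_pow_sub_one_eq_prod hn hζ)
  rw [eval_prod] at h
  simp only [eval_sub, eval_pow, eval_X, eval_one, eval_C] at h
  exact h.symm

open Polynomial in
theorem prod_erase_roots [DecidableEq M] {n : ℕ} (hn : 0 < n) {ζ : M} (hζ : IsPrimitiveRoot ζ n)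
    {θ : M} (hθ : θ ^ n = 1) :
    ∏ η ∈ (nthRootsFinset n (1 : M)).erase θ, (θ - η) = n * θ ^ (n - 1) := by
  have hmem : θ ∈ nthRootsFinset n (1 : M) := (mem_nthRootsFinset hn _).2 hθ
  have h := congrArg (fun P => eval θ (derivative P)) (X_pow_sub_one_eq_prod hn hζ)
  simp only [derivative_sub, derivative_X_pow, derivative_one, sub_zero, eval_mul, eval_natCast,
    eval_pow, eval_X, map_natCast] at h
  rw [h, derivative_prod_finset]
  rw [eval_finsetSum, Finset.sum_eq_single θ]
  · simp [eval_prod]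
  · intro b _ hb
    rw [eval_mul, eval_prod, Finset.prod_eq_zero (i := θ)]
    · rw [zero_mul]
    · exact Finset.mem_erase.2 ⟨hb.symm, hmem⟩
    · simp
  · intro h1
    exact absurd hmem h1

/-- some root of unity is near to `s` if `s ^ n` is near to `1` -/
theorem exists_root_near {n : ℕ} (hn : 0 < n) {ζ : M} (hζ : IsPrimitiveRoot ζ n) (s : M) :
    ∃ η : M, η ^ n = 1 ∧ W (s - η) * W (n : M) ≤ W (s ^ n - 1) := by
  classical
  have hne : (Polynomial.nthRootsFinset n (1 : M)).Nonempty :=
    ⟨1, (Polynomial.mem_nthRootsFinset hn _).2 (one_pow n)⟩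
  obtain ⟨θ, hθ, hmin⟩ := Finset.exists_min_image (Polynomial.nthRootsFinset n (1 : M))
    (fun η => W (s - η)) hne
  have hθ1 : θ ^ n = 1 := (Polynomial.mem_nthRootsFinset hn _).1 hθ
  refine ⟨θ, hθ1, ?_⟩
  rw [← prod_sub_roots hn hζ s, ← Finset.mul_prod_erase _ _ hθ, map_mul, map_prod]
  refine mul_le_mul_right ?_ _
  have h1 : W (n : M) = ∏ η ∈ (Polynomial.nthRootsFinset n (1 : M)).erase θ, W (θ - η) := by
    rw [← map_prod, prod_erase_roots hn hζ hθ1, map_mul, map_pow, val_root W hn hθ1, one_pow,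
      mul_one]
  rw [h1]
  refine Finset.prod_le_prod' fun η hη => ?_
  have h2 : θ - η = (s - η) - (s - θ) := by ring
  rw [h2]
  exact (Valuation.map_sub _ _ _).trans (max_le le_rfl (hmin η (Finset.mem_of_mem_erase hη)))

/-- differences of roots of unity -/
theorem val_root_sub_one {n : ℕ} (hn : 0 < n) {ζ : M} (hζ : IsPrimitiveRoot ζ n) {η : M}
    (hη : η ^ n = 1) (h1 : η ≠ 1) : W (n : M) ≤ W (η - 1) := by
  classical
  have h := prod_erase_roots hn hζ (one_pow n)
  rw [one_pow, mul_one] at h
  have hmem : η ∈ (Polynomial.nthRootsFinset n (1 : M)).erase 1 :=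
    Finset.mem_erase.2 ⟨h1, (Polynomial.mem_nthRootsFinset hn _).2 hη⟩
  rw [← h, map_prod, ← Finset.mul_prod_erase _ _ hmem, Valuation.map_sub_swap W 1 η]
  refine mul_le_of_le_one_right' ?_
  refine Finset.prod_le_one' fun θ hθ => ?_
  have hθ1 : θ ^ n = 1 := (Polynomial.mem_nthRootsFinset hn _).1
    (Finset.mem_of_mem_erase (Finset.mem_of_mem_erase hθ))
  refine (Valuation.map_sub _ _ _).trans ?_
  rw [map_one, val_root W hn hθ1, max_self]

end val

theorem over_of_under {F M : Type} [Field F] [NumberField F] [Field M] [NumberField M] [Algebra F M]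
    (w : HeightOneSpectrum (𝓞 M)) (v : HeightOneSpectrum (𝓞 F)) (h : w.under (𝓞 F) = v) :
    Pool.Agent.TeamU.Over w v := by
  rw [← h]
  rfl

/-- **Job SPL.** -/
theorem spl : S_SPL := by
  intro F M _ _ _ _ _ _ n ζ hn hζ a y r hr hg v hv w hw g hgw
  have hover := over_of_under w v hw
  set W := w.valuation M with hW
  have hval : ∀ x : F, W (algebraMap F M x) =
      v.valuation F x ^ (v.asIdeal.ramificationIdx' w.asIdeal) := fun x =>
    Pool.Agent.TeamU.val_over hover x
  have hζM : IsPrimitiveRoot (algebraMap F M ζ) n := hζ.map_of_injective (algebraMap F M).injective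
  have hn0 : (n : M) ≠ 0 := Nat.cast_ne_zero.2 (by omega)
  set s : M := r / algebraMap F M y with hs
  have hy0 : algebraMap F M (y : F) ≠ 0 := by
    rw [Ne, map_eq_zero]
    exact y.ne_zero
  have hr0 : r ≠ 0 := by
    rintro rfl
    rw [zero_pow (by omega)] at hr
    exact a.ne_zero ((map_eq_zero (algebraMap F M)).1 hr.symm)
  have hsn : s ^ n - 1 = algebraMap F M ((a : F) / (y : F) ^ n - 1) := by
    rw [hs, div_pow, hr, map_sub, map_div₀, map_pow, map_one]
  have he : v.asIdeal.ramificationIdx' w.asIdeal ≠ 0 := by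
    intro h0
    have h1 := hval (0 : F)
    rw [map_zero, map_zero, map_zero, h0, pow_zero] at h1
    exact zero_ne_one h1
  have hlt : W (s ^ n - 1) < W (n : M) ^ 2 := by
    have h1 : (n : M) = algebraMap F M (n : F) := (map_natCast _ n).symm
    rw [hsn, h1, hval, hval, ← pow_mul, mul_comm _ 2, pow_mul]
    exact pow_lt_pow_left₀ hv zero_le he
  obtain ⟨θ, hθ, hle⟩ := exists_root_near W hn hζM s
  have hWn : W (n : M) ≠ 0 := (Valuation.ne_zero_iff _).2 hn0
  have hWn1 : W (n : M) ≤ 1 := by
    have := w.valuation_le_one (K := M) (n : 𝓞 M)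
    simpa using this
  have hm : W (s - θ) < W (n : M) := by
    by_contra h
    push Not at h
    have h2 : W (n : M) * W (n : M) ≤ W (s - θ) * W (n : M) := mul_le_mul_left h _
    rw [← sq] at h2
    exact absurd (h2.trans hle) (not_le.2 hlt)
  have hWs : W s = 1 := by
    have h1 : W (s ^ n - 1) < 1 := hlt.trans_le (pow_le_one' hWn1 2)
    have h2 : W (s ^ n) = 1 := by
      have h3 := Valuation.map_add_eq_of_lt_right W (x := s ^ n - 1) (y := 1) (by rwa [map_one])
      rw [sub_add_cancel, map_one] at h3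
      exact h3
    rw [map_pow] at h2
    exact (pow_eq_one_iff.1 h2).resolve_right (by omega)
  -- the automorphism
  have hgr : (g r / r) ^ n = 1 := by
    rw [div_pow, ← map_pow, hr, g.commutes, ← hr, div_self (pow_ne_zero _ hr0)]
  set η := g r / r with hη
  have hgs : g s = η * s := by
    rw [hs, map_div₀, g.commutes, hη]
    field_simp
  have hWg : ∀ x : M, W (g x) = W x := by
    intro x
    have h1 := Pool.Agent.TeamU.val_act g w x
    rwa [hgw] at h1
  have hgθ : g θ = θ := by
    have : NeZero n := ⟨by omega⟩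
    obtain ⟨i, -, hi⟩ := hζM.eq_pow_of_pow_eq_one hθ
    rw [← hi, ← map_pow, g.commutes]
  have h1 : W (η * s - θ) = W (s - θ) := by
    rw [← hWg (s - θ), map_sub g s θ, hgs, hgθ]
  have h2 : W (η - 1) < W (n : M) := by
    have h3 : (η - 1) * s = (η * s - θ) - (s - θ) := by ring
    have h4 : W (η - 1) = W ((η - 1) * s) := by rw [map_mul, hWs, mul_one]
    rw [h4, h3]
    refine (Valuation.map_sub _ _ _).trans_lt ?_
    rw [h1, max_self]
    exact hm
  have h3 : η = 1 := by
    by_contra h4
    exact absurd (val_root_sub_one W hn hζM hgr h4) (not_le.2 h2)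
  refine hg g ?_
  rw [hη, div_eq_one_iff_eq hr0] at h3
  exact h3

end Pool.Agent.Q38.EX
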