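import Pool.Agent.Q20.EX.Stm
import Pool.Agent.Q125.AR.Base
import Pool.Agent.Q182.AR.Base
import Pool.Agent.Q225.AR.FR
import Pool.Agent.Q106.AR.NmB
import Pool.Agent.Q84.AR.Frac

set_option autoImplicit false
set_option linter.unusedSectionVars false

/-! # Project EX, job NRM, first part: approximation, norms near a prime -/

namespace Pool.Agent.Q38.EX

open NumberField IsDedekindDomain Pool.Agent.Q5.BR Pool.Agent.Q92.AR Pool.Agent.Q20.EX

section val

variable {M : Type*} [Field M] {Γ : Type*} [LinearOrderedCommGroupWithZero Γ] (W : Valuation M Γ)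

theorem near_one {z : M} {r : Γ} (hr : r < 1) (h : W (z - 1) ≤ r) : W z = 1 := by
  have h3 := Valuation.map_add_eq_of_lt_right W (x := z - 1) (y := 1) (by
    rw [map_one]
    exact h.trans_lt hr)
  rw [sub_add_cancel, map_one] at h3
  exact h3

theorem near_mul {z z' : M} {r : Γ} (hr : r < 1) (h : W (z - 1) ≤ r) (h' : W (z' - 1) ≤ r) :
    W (z * z' - 1) ≤ r := by
  have h1 : z * z' - 1 = (z - 1) * z' + (z' - 1) := by ring
  rw [h1]
  refine (Valuation.map_add _ _ _).trans (max_le ?_ h')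
  rw [map_mul, near_one W hr h', mul_one]
  exact h

theorem near_inv {z : M} {r : Γ} (hr : r < 1) (h : W (z - 1) ≤ r) : W (z⁻¹ - 1) ≤ r := by
  have hz := near_one W hr h
  have hz0 : z ≠ 0 := by
    rintro rfl
    rw [map_zero] at hz
    exact zero_ne_one hz
  have h1 : z⁻¹ - 1 = - (z⁻¹ * (z - 1)) := by
    rw [mul_sub, inv_mul_cancel₀ hz0]
    ring
  rw [h1, Valuation.map_neg, map_mul, map_inv₀, hz, inv_one, one_mul]
  exact h

theorem near_div {z z' : M} {r : Γ} (hr : r < 1) (h : W (z - 1) ≤ r) (h' : W (z' - 1) ≤ r) :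
    W (z / z' - 1) ≤ r := by
  rw [div_eq_mul_inv]
  exact near_mul W hr h (near_inv W hr h')

theorem near_prod {ι : Type*} (s : Finset ι) (z : ι → M) {r : Γ} (hr : r < 1)
    (h : ∀ i ∈ s, W (z i - 1) ≤ r) : W ((∏ i ∈ s, z i) - 1) ≤ r := by
  classical
  induction s using Finset.induction_on with
  | empty =>
    rw [Finset.prod_empty, sub_self, map_zero]
    exact zero_le
  | insert i s hi ih =>
    rw [Finset.prod_insert hi]
    exact near_mul W hr (h i (Finset.mem_insert_self _ _))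
      (ih fun j hj => h j (Finset.mem_insert_of_mem hj))

end val

section approx

variable {K : Type} [Field K] [NumberField K]

theorem exists_exp_le {y : WithZero (Multiplicative ℤ)} (hy : y ≠ 0) :
    ∃ e : ℕ, WithZero.exp (-(e : ℤ)) ≤ y := by
  refine ⟨(-WithZero.log y).toNat, ?_⟩
  conv_rhs => rw [← WithZero.exp_log hy]
  refine WithZero.exp_le_exp.2 ?_
  have := Int.self_le_toNat (-WithZero.log y)
  omega

theorem val_nat_lt_one {N : ℕ} {w : HeightOneSpectrum (𝓞 K)} (h : (N : 𝓞 K) ∈ w.asIdeal) :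
    w.valuation K (N : K) < 1 := by
  have h1 := (w.valuation_lt_one_iff_mem (K := K) (N : 𝓞 K)).2 h
  simpa using h1

theorem val_nat_ne_zero {N : ℕ} (hN : N ≠ 0) (w : HeightOneSpectrum (𝓞 K)) :
    w.valuation K (N : K) ≠ 0 := (Valuation.ne_zero_iff _).2 (Nat.cast_ne_zero.2 hN)

/-- **Approximation.** -/
theorem approx {N : ℕ} (hN : N ≠ 0) (y : HeightOneSpectrum (𝓞 K) → Kˣ) : ∃ z : Kˣ,
    ∀ w : HeightOneSpectrum (𝓞 K), (N : 𝓞 K) ∈ w.asIdeal →
      w.valuation K ((z : K) / (y w : K) - 1) ≤ w.valuation K (N : K) := by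
  classical
  have hfin := Pool.Agent.Q125.AR.finite_dvd (F := K) hN
  set S := hfin.toFinset with hS
  have hmS : ∀ w, w ∈ S ↔ (N : 𝓞 K) ∈ w.asIdeal := fun w => by
    rw [hS, Set.Finite.mem_toFinset]
    rfl
  by_cases hSe : S = ∅
  · refine ⟨1, fun w hw => ?_⟩
    rw [← hmS, hSe] at hw
    exact absurd hw (Finset.notMem_empty _)
  -- a common denominator
  have hfr : ∀ w, ∃ a b : 𝓞 K, a ≠ 0 ∧ b ≠ 0 ∧ (y w : K) * (b : K) = (a : K) := by
    intro w
    obtain ⟨a, b, hb, hab⟩ := IsFractionRing.div_surjective (A := 𝓞 K) (y w : K)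
    have hb0 : b ≠ 0 := nonZeroDivisors.ne_zero hb
    have hb1 : (algebraMap (𝓞 K) K b) ≠ 0 := by
      intro h
      exact hb0 ((map_eq_zero_iff _ (FaithfulSMul.algebraMap_injective (𝓞 K) K)).1 h)
    refine ⟨a, b, ?_, hb0, ?_⟩
    · rintro rfl
      rw [map_zero, zero_div] at hab
      exact (y w).ne_zero hab.symm
    · rw [← hab]
      exact div_mul_cancel₀ _ hb1
  choose a b ha hb hab using hfr
  set d : 𝓞 K := ∏ w ∈ S, b w with hd
  have hd0 : d ≠ 0 := Finset.prod_ne_zero_iff.2 fun w _ => hb w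
  have hdK : (d : K) ≠ 0 := by
    intro h
    exact hd0 ((map_eq_zero_iff _ (FaithfulSMul.algebraMap_injective (𝓞 K) K)).1 h)
  set A : HeightOneSpectrum (𝓞 K) → 𝓞 K := fun w => a w * ∏ w' ∈ S.erase w, b w' with hA
  have hAy : ∀ w ∈ S, (A w : K) = (d : K) * (y w : K) := by
    intro w hw
    have h1 : d = b w * ∏ w' ∈ S.erase w, b w' := (Finset.mul_prod_erase S b hw).symm
    have h2 : (A w : K) = (a w : K) * ((∏ w' ∈ S.erase w, b w' : 𝓞 K) : K) := map_mul _ _ _
    have h3 : (d : K) = (b w : K) * ((∏ w' ∈ S.erase w, b w' : 𝓞 K) : K) := by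
      rw [h1]
      exact map_mul _ _ _
    rw [h2, h3, ← hab w]
    ring
  have hex : ∀ w : HeightOneSpectrum (𝓞 K), ∃ e : ℕ,
      WithZero.exp (-(e : ℤ)) ≤ w.valuation K (N : K) *
      w.valuation K ((d : K) * (y w : K)) := fun w =>
    exists_exp_le (mul_ne_zero (val_nat_ne_zero hN w)
      ((Valuation.ne_zero_iff _).2 (mul_ne_zero hdK (y w).ne_zero)))
  choose e he using hex
  obtain ⟨Z, hZ⟩ := IsDedekindDomain.exists_forall_sub_mem_ideal (s := S)
    (fun w : HeightOneSpectrum (𝓞 K) => w.asIdeal) e (fun w _ => w.prime)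
    (fun w _ w' _ h h' => h (HeightOneSpectrum.ext h')) (fun w => A w.1)
  have key : ∀ w ∈ S, w.valuation K ((Z : K) / (d : K) / (y w : K) - 1) ≤
      w.valuation K (N : K) := by
    intro w hw
    have h1 := hZ w hw
    have h2 : w.valuation K (((Z - A w : 𝓞 K) : 𝓞 K) : K) ≤ WithZero.exp (-(e w : ℤ)) := by
      have h3 := (w.intValuation_le_pow_iff_mem (Z - A w) (e w)).2 h1
      rw [← w.valuation_of_algebraMap (K := K)] at h3
      exact h3
    have h4 : ((Z - A w : 𝓞 K) : K) = (Z : K) - (d : K) * (y w : K) := by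
      have : ((Z - A w : 𝓞 K) : K) = (Z : K) - (A w : K) := map_sub _ _ _
      rw [this, hAy w hw]
    have hdy : (d : K) * (y w : K) ≠ 0 := mul_ne_zero hdK (y w).ne_zero
    have h5 : (Z : K) / (d : K) / (y w : K) - 1 =
        ((Z : K) - (d : K) * (y w : K)) / ((d : K) * (y w : K)) := by
      rw [div_div, sub_div, div_self hdy]
    rw [h5, map_div₀, ← h4]
    have hv0 : w.valuation K ((d : K) * (y w : K)) ≠ 0 := (Valuation.ne_zero_iff _).2 hdy
    rw [div_le_iff₀ (zero_lt_iff.2 hv0)]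
    exact h2.trans (he w)
  obtain ⟨w0, hw0⟩ := Finset.nonempty_iff_ne_empty.2 hSe
  have hZ0 : (Z : K) / (d : K) ≠ 0 := by
    intro h
    have h1 := key w0 hw0
    rw [h, zero_div, zero_sub, Valuation.map_neg, map_one] at h1
    exact absurd h1 (not_le.2 (val_nat_lt_one ((hmS w0).1 hw0)))
  exact ⟨Units.mk0 _ hZ0, fun w hw => by
    rw [Units.val_mk0]
    exact key w ((hmS w).2 hw)⟩

end approx

section norm

variable {F M : Type} [Field F] [NumberField F] [Field M] [NumberField M] [Algebra F M]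

theorem over_under (w : HeightOneSpectrum (𝓞 M)) : Pool.Agent.TeamU.Over w (w.under (𝓞 F)) := rfl

theorem under_act (g : M ≃ₐ[F] M) (w : HeightOneSpectrum (𝓞 M)) :
    (Pool.Agent.TeamU.act g w).under (𝓞 F) = w.under (𝓞 F) :=
  Pool.Agent.TeamU.over_unique (over_under _) (Pool.Agent.TeamU.over_act g (over_under w))

theorem act_inv_act (g : M ≃ₐ[F] M) (w : HeightOneSpectrum (𝓞 M)) :
    Pool.Agent.TeamU.act g (Pool.Agent.TeamU.act g⁻¹ w) = w := by
  rw [← Pool.Agent.TeamU.act_mul, mul_inv_cancel, Pool.Agent.TeamU.act_one]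

theorem val_g (g : M ≃ₐ[F] M) (w : HeightOneSpectrum (𝓞 M)) (z : M) :
    w.valuation M (g z) = (Pool.Agent.TeamU.act g⁻¹ w).valuation M z := by
  have h := Pool.Agent.TeamU.val_act g (Pool.Agent.TeamU.act g⁻¹ w) z
  rwa [act_inv_act] at h

theorem val_act_F (g : M ≃ₐ[F] M) (w : HeightOneSpectrum (𝓞 M)) (c : F) :
    (Pool.Agent.TeamU.act g⁻¹ w).valuation M (algebraMap F M c) =
      w.valuation M (algebraMap F M c) := by
  rw [← val_g, g.commutes]

theorem ram_ne_zero (w : HeightOneSpectrum (𝓞 M)) :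
    (w.under (𝓞 F)).asIdeal.ramificationIdx' w.asIdeal ≠ 0 := by
  intro h0
  have h1 := Pool.Agent.TeamU.val_over (over_under (F := F) w) (0 : F)
  rw [map_zero, map_zero, map_zero, h0, pow_zero] at h1
  exact zero_ne_one h1

theorem val_le_iff (w : HeightOneSpectrum (𝓞 M)) (a b : F) :
    w.valuation M (algebraMap F M a) ≤ w.valuation M (algebraMap F M b) ↔
      (w.under (𝓞 F)).valuation F a ≤ (w.under (𝓞 F)).valuation F b := by
  rw [Pool.Agent.TeamU.val_over (over_under (F := F) w), Pool.Agent.TeamU.val_over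
    (over_under (F := F) w)]
  exact pow_le_pow_iff_left₀ zero_le zero_le (ram_ne_zero w)

theorem val_nat (w : HeightOneSpectrum (𝓞 M)) (N : ℕ) (a : F) :
    w.valuation M (algebraMap F M a - 1) ≤ w.valuation M (N : M) ↔
      (w.under (𝓞 F)).valuation F (a - 1) ≤ (w.under (𝓞 F)).valuation F (N : F) := by
  have h1 : algebraMap F M a - 1 = algebraMap F M (a - 1) := by rw [map_sub, map_one]
  have h2 : (N : M) = algebraMap F M (N : F) := (map_natCast _ N).symm
  rw [h1, h2]
  exact val_le_iff w _ _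

variable [IsGalois F M]

open scoped Classical in
/-- the decomposition group -/
noncomputable def Dec (F : Type) {M : Type} [Field F] [NumberField F] [Field M] [NumberField M]
    [Algebra F M] [IsGalois F M] (w : HeightOneSpectrum (𝓞 M)) : Finset (M ≃ₐ[F] M) :=
  Finset.univ.filter fun g => Pool.Agent.TeamU.act g w = w

theorem mem_Dec {w : HeightOneSpectrum (𝓞 M)} {g : M ≃ₐ[F] M} :
    g ∈ Dec F w ↔ Pool.Agent.TeamU.act g w = w := by
  classical
  unfold Dec
  rw [Finset.mem_filter]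
  exact ⟨fun h => h.2, fun h => ⟨Finset.mem_univ _, h⟩⟩

theorem act_inv_iff {w : HeightOneSpectrum (𝓞 M)} {g : M ≃ₐ[F] M} :
    Pool.Agent.TeamU.act g⁻¹ w = w ↔ Pool.Agent.TeamU.act g w = w := by
  constructor
  · intro h
    have h1 := act_inv_act g w
    rwa [h] at h1
  · intro h
    have h1 := act_inv_act g⁻¹ w
    rw [inv_inv, h] at h1
    exact h1

theorem nu_eq (y : Mˣ) : algebraMap F M (nu F M y : F) = ∏ g : M ≃ₐ[F] M, g (y : M) := by
  have h : (nu F M y : F) = Algebra.norm F (y : M) := rfl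
  rw [h, Algebra.norm_eq_prod_automorphisms]

/-- the norm of an element near `u` at `w` and near `1` at the other primes above `v` -/
theorem norm_near {N : ℕ} (w : HeightOneSpectrum (𝓞 M)) (hw : (N : 𝓞 M) ∈ w.asIdeal) (y u : Mˣ)
    (h1 : w.valuation M ((y : M) / (u : M) - 1) ≤ w.valuation M (N : M))
    (h2 : ∀ w' : HeightOneSpectrum (𝓞 M), w'.under (𝓞 F) = w.under (𝓞 F) → w' ≠ w →
      w'.valuation M ((y : M) - 1) ≤ w'.valuation M (N : M)) :
    w.valuation M (algebraMap F M (nu F M y : F) / (∏ g ∈ Dec F w, g (u : M)) - 1) ≤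
      w.valuation M (N : M) := by
  classical
  have hr := val_nat_lt_one hw
  have hNg : ∀ g : M ≃ₐ[F] M, (Pool.Agent.TeamU.act g⁻¹ w).valuation M (N : M) =
      w.valuation M (N : M) := by
    intro g
    have := val_act_F g w (N : F)
    rwa [map_natCast] at this
  have hs : (∏ g ∈ Dec F w, g (u : M)) = ∏ g : M ≃ₐ[F] M, if g ∈ Dec F w then g (u : M) else 1 := by
    rw [Finset.prod_ite_mem, Finset.univ_inter]
  rw [nu_eq, hs, ← Finset.prod_div_distrib]
  refine near_prod _ _ _ hr fun g _ => ?_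
  by_cases hg : g ∈ Dec F w
  · rw [if_pos hg, ← map_div₀, ← map_one g, ← map_sub, val_g,
      act_inv_iff.2 (mem_Dec.1 hg)]
    exact h1
  · rw [if_neg hg, div_one]
    have h3 : g (y : M) - 1 = g ((y : M) - 1) := by rw [map_sub, map_one]
    rw [h3, val_g, ← hNg g]
    refine h2 _ (under_act _ _) ?_
    intro h4
    exact hg (mem_Dec.2 (act_inv_iff.1 h4))

/-- near elements have near norms -/
theorem norm_cong {N : ℕ} (v : HeightOneSpectrum (𝓞 F)) (hv : (N : 𝓞 F) ∈ v.asIdeal) (y : Mˣ)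
    (w0 : HeightOneSpectrum (𝓞 M)) (hw0 : w0.under (𝓞 F) = v)
    (h : ∀ w : HeightOneSpectrum (𝓞 M), w.under (𝓞 F) = v →
      w.valuation M ((y : M) - 1) ≤ w.valuation M (N : M)) :
    v.valuation F ((nu F M y : F) - 1) ≤ v.valuation F (N : F) := by
  classical
  have hw : (N : 𝓞 M) ∈ w0.asIdeal := by
    rw [← Pool.Agent.Q125.AR.mem_under (F := F), hw0]
    exact hv
  have h1 := norm_near w0 hw y 1 (by
    rw [Units.val_one, div_one]
    exact h w0 hw0) (fun w' h3 _ => h w' (h3.trans hw0))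
  have h4 : (∏ g ∈ Dec F w0, g ((1 : Mˣ) : M)) = 1 := by
    rw [Units.val_one]
    exact Finset.prod_eq_one fun g _ => map_one g
  rw [h4, div_one, val_nat, hw0] at h1
  exact h1

/-- a local solution from an element `u` -/
theorem local_sol {N : ℕ} (hN : N ≠ 0) (x : Fˣ) (w0 : HeightOneSpectrum (𝓞 M))
    (hw : (N : 𝓞 M) ∈ w0.asIdeal) (u : Mˣ)
    (hu : w0.valuation M (algebraMap F M (x : F) / (∏ g ∈ Dec F w0, g (u : M)) - 1) ≤
      w0.valuation M (N : M)) :
    ∃ y : Mˣ, (w0.under (𝓞 F)).valuation F ((x : F) / (nu F M y : F) - 1) ≤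
      (w0.under (𝓞 F)).valuation F (N : F) ∧ (w0.valuation M (u : M) = 1 →
      ∀ w : HeightOneSpectrum (𝓞 M), w.under (𝓞 F) = w0.under (𝓞 F) →
        w.valuation M (y : M) = 1) := by
  classical
  obtain ⟨y, hy⟩ := approx hN (fun w : HeightOneSpectrum (𝓞 M) => if w = w0 then u else 1)
  have hmem : ∀ w : HeightOneSpectrum (𝓞 M), w.under (𝓞 F) = w0.under (𝓞 F) →
      (N : 𝓞 M) ∈ w.asIdeal := by
    intro w h
    rw [← Pool.Agent.Q125.AR.mem_under (F := F), h, Pool.Agent.Q125.AR.mem_under]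
    exact hw
  have h1 : w0.valuation M ((y : M) / (u : M) - 1) ≤ w0.valuation M (N : M) := by
    have := hy w0 hw
    rwa [if_pos rfl] at this
  have h2 : ∀ w' : HeightOneSpectrum (𝓞 M), w'.under (𝓞 F) = w0.under (𝓞 F) → w' ≠ w0 →
      w'.valuation M ((y : M) - 1) ≤ w'.valuation M (N : M) := by
    intro w' h3 h4
    have := hy w' (hmem w' h3)
    rwa [if_neg h4, Units.val_one, div_one] at this
  refine ⟨y, ?_, fun hu1 w h3 => ?_⟩
  · have h3 := norm_near w0 hw y u h1 h2
    have h4 := near_div _ (val_nat_lt_one hw) hu h3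
    rw [← val_nat]
    rw [map_div₀]
    have h5 : (∏ g ∈ Dec F w0, g (u : M)) ≠ 0 := Finset.prod_ne_zero_iff.2 fun g _ => by
      rw [Ne, map_eq_zero]
      exact u.ne_zero
    have h6 : algebraMap F M (x : F) / (∏ g ∈ Dec F w0, g (u : M)) /
        (algebraMap F M (nu F M y : F) / (∏ g ∈ Dec F w0, g (u : M))) =
        algebraMap F M (x : F) / algebraMap F M (nu F M y : F) := by
      rw [div_div_div_cancel_right₀ h5]
    rwa [h6] at h4
  · by_cases h4 : w = w0
    · subst h4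
      have h5 := near_one _ (val_nat_lt_one hw) h1
      rw [map_div₀, hu1, div_one] at h5
      exact h5
    · exact near_one _ (val_nat_lt_one (hmem w h3)) (h2 w h3 h4)

theorem exists_above (v : HeightOneSpectrum (𝓞 F)) :
    ∃ w : HeightOneSpectrum (𝓞 M), w.under (𝓞 F) = v := by
  have hvp : v.asIdeal.IsPrime := v.isPrime
  obtain ⟨Q, -, hQ, hQv⟩ := Ideal.exists_ideal_over_prime_of_isIntegral (S := 𝓞 M) v.asIdeal ⊥ (by
    rw [← RingHom.ker_eq_comap_bot,
      (RingHom.injective_iff_ker_eq_bot _).1 (FaithfulSMul.algebraMap_injective (𝓞 F) (𝓞 M))]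
    exact bot_le)
  have hQ0 : Q ≠ ⊥ := by
    intro h
    apply v.ne_bot
    rw [← hQv, h, ← RingHom.ker_eq_comap_bot]
    exact (RingHom.injective_iff_ker_eq_bot _).1 (FaithfulSMul.algebraMap_injective (𝓞 F) (𝓞 M))
  exact ⟨⟨Q, hQ, hQ0⟩, HeightOneSpectrum.ext hQv⟩

/-- **Gluing the local solutions.** -/
theorem glue {N : ℕ} (hN : N ≠ 0) (x : Fˣ)
    (h : ∀ v : HeightOneSpectrum (𝓞 F), (N : 𝓞 F) ∈ v.asIdeal → ∃ y : Mˣ,
      v.valuation F ((x : F) / (nu F M y : F) - 1) ≤ v.valuation F (N : F) ∧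
      (v.valuation F (x : F) = 1 → ∀ w : HeightOneSpectrum (𝓞 M), w.under (𝓞 F) = v →
        w.valuation M (y : M) = 1)) :
    ∃ y : Mˣ, Pos (y : M) ∧ Pos (nu F M y : F) ∧ Cong N ((x : F) / (nu F M y : F)) ∧
    ∀ w : HeightOneSpectrum (𝓞 M), (N : 𝓞 M) ∈ w.asIdeal →
      (w.under (𝓞 F)).valuation F (x : F) = 1 → w.valuation M (y : M) = 1 := by
  classical
  have hex : ∀ v : HeightOneSpectrum (𝓞 F), ∃ y : Mˣ, (N : 𝓞 F) ∈ v.asIdeal →
      v.valuation F ((x : F) / (nu F M y : F) - 1) ≤ v.valuation F (N : F) ∧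
      (v.valuation F (x : F) = 1 → ∀ w : HeightOneSpectrum (𝓞 M), w.under (𝓞 F) = v →
        w.valuation M (y : M) = 1) := by
    intro v
    by_cases hv : (N : 𝓞 F) ∈ v.asIdeal
    · obtain ⟨y, hy⟩ := h v hv
      exact ⟨y, fun _ => hy⟩
    · exact ⟨1, fun h => absurd h hv⟩
  choose Y hY using hex
  obtain ⟨z, hz⟩ := approx hN (fun w : HeightOneSpectrum (𝓞 M) => Y (w.under (𝓞 F)))
  obtain ⟨c, hc1, hc2⟩ := Pool.Agent.Q84.AR.sgn M N hN (fun φ => 0 < φ (z : M))
  have hpos : Pos ((z * c : Mˣ) : M) := by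
    intro φ
    rw [Units.val_mul, map_mul]
    by_cases h1 : 0 < φ (z : M)
    · exact mul_pos h1 ((hc2 φ).2 h1)
    · have h2 : φ (z : M) < 0 := lt_of_le_of_ne (not_lt.1 h1) (by
        rw [Ne, map_eq_zero]
        exact z.ne_zero)
      have h3 : φ (c : M) < 0 := lt_of_le_of_ne (not_lt.1 fun h4 => h1 ((hc2 φ).1 h4)) (by
        rw [Ne, map_eq_zero]
        exact c.ne_zero)
      exact mul_pos_of_neg_of_neg h2 h3
  have hnear : ∀ w : HeightOneSpectrum (𝓞 M), (N : 𝓞 M) ∈ w.asIdeal →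
      w.valuation M (((z * c / Y (w.under (𝓞 F)) : Mˣ) : M) - 1) ≤ w.valuation M (N : M) := by
    intro w hw
    have h1 := near_mul _ (val_nat_lt_one hw) (hz w hw) (hc1 w hw)
    have h2 : ((z * c / Y (w.under (𝓞 F)) : Mˣ) : M) =
        (z : M) / (Y (w.under (𝓞 F)) : M) * (c : M) := by
      rw [Units.val_div_eq_div_val, Units.val_mul]
      ring
    rw [h2]
    exact h1
  refine ⟨z * c, hpos, ?_, ?_, ?_⟩
  · have h1 : z * c ∈ Ray M 1 := ⟨fun v hv => by
      exfalso
      rw [Nat.cast_one] at hv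
      exact v.isPrime.ne_top (Ideal.eq_top_of_isUnit_mem _ hv isUnit_one), hpos⟩
    exact ((Pool.Agent.Q106.AR.nm F M).2.2.1 1 one_ne_zero _ h1).2
  · intro v hv
    obtain ⟨w0, hw0⟩ := exists_above (M := M) v
    have h1 := norm_cong v hv (z * c / Y v) w0 hw0 (fun w hw => by
      have hNw : (N : 𝓞 M) ∈ w.asIdeal := by
        rw [← Pool.Agent.Q125.AR.mem_under (F := F), hw]
        exact hv
      have h2 := hnear w hNw
      rwa [hw] at h2)
    have h2 := (hY v hv).1
    have h3 := near_div _ (val_nat_lt_one hv) h2 h1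
    have h4 : (x : F) / (nu F M (Y v) : F) / (nu F M (z * c / Y v) : F) =
        (x : F) / (nu F M (z * c) : F) := by
      rw [map_div, Units.val_div_eq_div_val]
      have := (nu F M (Y v)).ne_zero
      have := (nu F M (z * c)).ne_zero
      field_simp
    rwa [h4] at h3
  · intro w hw hx
    have hv : (N : 𝓞 F) ∈ (w.under (𝓞 F)).asIdeal := Pool.Agent.Q125.AR.mem_under.2 hw
    have h1 := (hY _ hv).2 hx w rfl
    have h2 := near_one _ (val_nat_lt_one hw) (hnear w hw)
    rw [Units.val_div_eq_div_val, map_div₀, h1, div_one] at h2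
    exact h2

end norm

end Pool.Agent.Q38.EX
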