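import Pool.Agent.Q240.EX.Stm2
import Pool.Agent.Q24.CD.PosZ

set_option autoImplicit false

/-!
# Project EX: `S_XtP`, properties of the extremal functions
-/

open Filter Topology
open scoped ComplexConjugate

namespace Pool.Agent.Q38.EX

open Pool.Agent.Y23 Pool.Agent.Y23.G.F Pool.Agent.Q240.EX

theorem bq0 (f : ℝ → ℂ) : Y23.bq 0 f = Y23.QQ f := by
  unfold Y23.bq
  rw [zero_mul, sub_zero]

theorem BB0 (f g : ℝ → ℂ) : Y23.BB 0 f g = Y23.QB f g := by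
  unfold Y23.BB
  rw [Complex.ofReal_zero, zero_mul, sub_zero]

theorem QQ_nn (hRH : RHy) (f : ℝ → ℂ) : 0 ≤ Y23.QQ f := by
  rw [Y23.QQ_eq_SS hRH]
  unfold Y23.SS
  exact tsum_nonneg fun ρ => by positivity

theorem QQ_line {a : ℝ} (ha : 0 < a) {f g : ℝ → ℂ} (hf : Y23.Hd a f) (hg : Y23.Hd a g) (t : ℂ) :
    Y23.QQ (fun x => f x + t * g x) = Y23.QQ f + 2 * (conj t * Y23.QB f g).re + ‖t‖ ^ 2 * Y23.QQ g := by
  have := Y23.bq_line ha 0 hf hg t
  rw [bq0, bq0, bq0, BB0] at this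
  exact this

theorem QQ_smul' (f : ℝ → ℂ) (c : ℂ) : Y23.QQ (fun x => c * f x) = ‖c‖ ^ 2 * Y23.QQ f := by
  have := Y23.bq_smul 0 f c
  rw [bq0, bq0] at this
  exact this

/-- orthogonality to the functions vanishing at `0` -/
theorem orth0 (hRH : RHy) {a : ℝ} {ν : ℕ∞} {f : ℝ → ℂ} (ha : 0 < a) (hf : Xt a ν f) {g : ℝ → ℂ}
    (hg : Y23.G.F.Hn a ν g) (h0 : Y23.TT g 0 = 0) : Y23.QB f g = 0 := by
  obtain ⟨hf1, hf2, hf3⟩ := hf
  obtain ⟨b, hb⟩ : ∃ b : ℂ, b = Y23.QB f g := ⟨_, rfl⟩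
  obtain ⟨s, hs⟩ : ∃ s : ℝ, s = 1 / (Y23.QQ g + 1) := ⟨_, rfl⟩
  have hQ := QQ_nn hRH g
  have hs0 : 0 < s := by
    rw [hs]
    positivity
  have hs1 : s * Y23.QQ g ≤ 1 := by
    rw [hs, one_div, inv_mul_le_iff₀ (by linarith)]
    linarith
  have hh : Y23.G.F.Hn a ν (fun x => f x + (-(s : ℂ) * b) * g x) := hf1.add (hg.smul (-(s : ℂ) * b))
  have e1 : Y23.TT (fun x => f x + (-(s : ℂ) * b) * g x) 0 = 1 := by
    rw [Y23.TT_add hf1.1 (hg.smul (-(s : ℂ) * b)).1, Y23.TT_smul, h0, hf2, mul_zero, add_zero]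
  have e2 := hf3 _ hh e1
  rw [QQ_line ha hf1.hd hg.hd, ← hb] at e2
  have h2 : conj (-(s : ℂ) * b) * b = ((-(s * ‖b‖ ^ 2) : ℝ) : ℂ) := by
    have h0 : conj b * b = ((‖b‖ ^ 2 : ℝ) : ℂ) := by
      rw [mul_comm, Complex.mul_conj, Complex.normSq_eq_norm_sq]
    rw [map_mul, map_neg, Complex.conj_ofReal, mul_assoc, h0]
    push_cast; ring
  have h3 : ‖-(s : ℂ) * b‖ ^ 2 = s ^ 2 * ‖b‖ ^ 2 := by
    rw [norm_mul, norm_neg, Complex.norm_real, mul_pow, Real.norm_eq_abs, sq_abs]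
  rw [h2, h3, Complex.ofReal_re] at e2
  have e3 : s * ‖b‖ ^ 2 * (s * Y23.QQ g) ≤ s * ‖b‖ ^ 2 * 1 :=
    mul_le_mul_of_nonneg_left hs1 (by positivity)
  have e4 : s * ‖b‖ ^ 2 ≤ 0 := by nlinarith
  have e5 : ‖b‖ ^ 2 ≤ 0 := by
    by_contra hcon
    have := mul_pos hs0 (not_le.1 hcon)
    linarith
  have e6 : ‖b‖ ^ 2 = 0 := le_antisymm e5 (sq_nonneg _)
  rw [← hb]
  exact norm_eq_zero.1 (pow_eq_zero_iff (two_ne_zero) |>.1 e6)

theorem orth (hRH : RHy) {a : ℝ} {ν : ℕ∞} {f : ℝ → ℂ} (ha : 0 < a) (hf : Xt a ν f) {g : ℝ → ℂ}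
    (hg : Y23.G.F.Hn a ν g) : Y23.QB f g = (Y23.QQ f : ℂ) * conj (Y23.TT g 0) := by
  obtain ⟨c, hc⟩ : ∃ c : ℂ, c = Y23.TT g 0 := ⟨_, rfl⟩
  have hg' : Y23.G.F.Hn a ν (fun x => g x + (-c) * f x) := hg.add (hf.1.smul (-c))
  have h0 : Y23.TT (fun x => g x + (-c) * f x) 0 = 0 := by
    rw [Y23.TT_add hg.1 (hf.1.smul (-c)).1, Y23.TT_smul, hf.2.1, ← hc]
    ring
  have h1 := orth0 hRH ha hf hg' h0
  rw [Y23.QB_conj, Y23.QB_add_left hg.1 (hf.1.smul (-c)).1 ((Y23.Hd_iff ha _).1 hg.hd).2 ((Y23.Hd_iff ha _).1 (hf.1.smul (-c)).hd).2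
    ((Y23.Hd_iff ha _).1 hf.1.hd).2, Y23.QB_smul_left, Y23.QB_self ((Y23.Hd_iff ha _).1 hf.1.hd).2, Y23.QB_conj f g] at h1
  have h2 := congrArg conj h1
  rw [Complex.conj_conj, map_zero] at h2
  rw [← hc]
  have h3 := congrArg conj h2
  rw [map_add, Complex.conj_conj, map_mul, map_neg, Complex.conj_ofReal, map_zero] at h3
  linear_combination h3

theorem uniq (hRH : RHy) {a : ℝ} {ν : ℕ∞} {f g : ℝ → ℂ} (ha : 0 < a) (hf : Xt a ν f) (hg : Xt a ν g) (w : ℂ) :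
    Y23.TT g w = Y23.TT f w := by
  have h1 : Y23.QQ g = Y23.QQ f := le_antisymm (hg.2.2 f hf.1 hf.2.1) (hf.2.2 g hg.1 hg.2.1)
  have h2 := QQ_line ha hf.1.hd hg.1.hd (-1)
  rw [orth hRH ha hf hg.1, hg.2.1, h1] at h2
  simp only [map_neg, map_one, mul_one, neg_mul, one_mul, Complex.neg_re, Complex.ofReal_re, norm_neg, norm_one,
    one_pow] at h2
  have h3 : Y23.QQ (fun x => f x + -g x) ≤ 0 := by linarith
  have hh : Y23.G.F.Hn a ν (fun x => f x + (-1) * g x) := hf.1.add (hg.1.smul (-1))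
  have hh' : Y23.G.F.Hn a ν (fun x => f x + -g x) := by simpa using hh
  have h4 := Pool.Agent.Q24.CD.posZ hRH a ν _ ha hh' h3 w
  have e : (fun x => f x + -g x) = fun x => f x - g x := by
    funext x
    ring
  rw [e, Y23.TT_sub hf.1.1 hg.1.1] at h4
  exact (sub_eq_zero.1 h4).symm

theorem line (hRH : RHy) {a : ℝ} {ν : ℕ∞} {f : ℝ → ℂ} (ha : 0 < a) (hf : Xt a ν f) (w0 : ℂ)
    (h0 : Y23.TT f w0 = 0) : w0.re = 0 := by
  by_contra hre
  have hw0 : w0 ≠ 0 := by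
    rintro rfl
    exact hre rfl
  obtain ⟨g, hg, hg1, -⟩ := hf.1.div ha w0 (Y23.G.F.ad_off hre) h0
  have hh : Y23.G.F.Hn a ν (fun x => f x + (w0 + conj w0) * g x) := hf.1.add (hg.smul (w0 + conj w0))
  obtain ⟨h, hhd⟩ : ∃ h : ℝ → ℂ, h = fun x => f x + (w0 + conj w0) * g x := ⟨_, rfl⟩
  rw [← hhd] at hh
  have hT : ∀ w, (w - w0) * Y23.TT h w = (w + conj w0) * Y23.TT f w := by
    intro w
    rw [hhd, Y23.TT_add hf.1.1 (hg.smul (w0 + conj w0)).1, Y23.TT_smul]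
    linear_combination (w0 + conj w0) * hg1 w
  have hQ : Y23.QQ h = Y23.QQ f := by
    rw [Y23.QQ_eq_SS hRH, Y23.QQ_eq_SS hRH]
    unfold Y23.SS
    refine tsum_congr fun ρ => ?_
    have hw : ((ρ : ℂ) - 1 / 2).re = 0 := by
      simp [hRH ρ]
    obtain ⟨w, hwd⟩ : ∃ w : ℂ, w = (ρ : ℂ) - 1 / 2 := ⟨_, rfl⟩
    rw [← hwd] at hw ⊢
    have hc : conj w = -w := by
      apply Complex.ext
      · rw [Complex.conj_re, Complex.neg_re, hw, neg_zero]
      · rw [Complex.conj_im, Complex.neg_im]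
    have hne : w - w0 ≠ 0 := by
      intro h
      apply hre
      rw [← sub_eq_zero.1 h]
      exact hw
    have hn : ‖w + conj w0‖ = ‖w - w0‖ := by
      rw [← RCLike.norm_conj (w - w0), map_sub, hc, ← norm_neg]
      congr 1
      ring
    have h1 := congrArg norm (hT w)
    rw [norm_mul, norm_mul, hn] at h1
    rw [mul_left_cancel₀ (norm_ne_zero_iff.2 hne) h1]
  obtain ⟨c, hc⟩ : ∃ c : ℂ, c = Y23.TT h 0 := ⟨_, rfl⟩
  have hc1 : -(w0 * c) = conj w0 := by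
    have := hT 0
    rw [hf.2.1, ← hc] at this
    linear_combination this
  have hcn : ‖c‖ = 1 := by
    have h1 := congrArg norm hc1
    rw [norm_neg, norm_mul, RCLike.norm_conj] at h1
    have h2 : ‖w0‖ ≠ 0 := norm_ne_zero_iff.2 hw0
    exact mul_left_cancel₀ h2 (by rw [h1, mul_one])
  have hc0 : c ≠ 0 := by
    intro h
    rw [h, norm_zero] at hcn
    exact zero_ne_one hcn
  have hX : Xt a ν (fun x => c⁻¹ * h x) := by
    refine ⟨hh.smul _, ?_, ?_⟩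
    · rw [Y23.TT_smul, ← hc, inv_mul_cancel₀ hc0]
    · intro g' hg' hg0
      rw [QQ_smul', norm_inv, hcn, hQ, inv_one, one_pow, one_mul]
      exact hf.2.2 g' hg' hg0
  have hU : ∀ w, Y23.TT h w = c * Y23.TT f w := by
    intro w
    have := uniq hRH ha hf hX w
    rw [Y23.TT_smul] at this
    rw [← this, ← mul_assoc, mul_inv_cancel₀ hc0, one_mul]
  have hcont : Continuous (Y23.TT f) := (Y23.differentiable_TT hf.1.1).continuous
  have hev : ∀ᶠ w in 𝓝 (0 : ℂ), Y23.TT f w ≠ 0 :=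
    hcont.continuousAt.eventually_ne (by rw [hf.2.1]; exact one_ne_zero)
  obtain ⟨w, hw1, hw2⟩ := ((hev.filter_mono nhdsWithin_le_nhds).and
    (self_mem_nhdsWithin (s := {(0 : ℂ)}ᶜ) (a := (0 : ℂ)))).exists
  have h1 := hT w
  rw [hU w, ← mul_assoc] at h1
  have h2 : (w - w0) * c = w + conj w0 := mul_right_cancel₀ hw1 h1
  have h3 : w * c = w := by linear_combination h2 - hc1
  have h4 : c = 1 := by
    have h5 : w * c = w * 1 := by rw [h3, mul_one]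
    exact mul_left_cancel₀ hw2 h5
  rw [h4, mul_one] at hc1
  apply hre
  have h6 := congrArg Complex.re hc1
  rw [Complex.neg_re, Complex.conj_re] at h6
  linarith

/-- **XtP** -/
theorem xtP : S_XtP := by
  intro hRH a ν f ha hf
  refine ⟨?_, fun g hg w => uniq hRH ha hf hg w, ?_, ?_, fun w hw => line hRH ha hf w hw,
    fun g hg => orth hRH ha hf hg⟩
  · by_contra hcon
    have := Pool.Agent.Q24.CD.posZ hRH a ν f ha hf.1 (not_lt.1 hcon) 0
    rw [hf.2.1] at this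
    exact one_ne_zero this
  · intro w
    have hX : Xt a ν (fun x => f (-x)) := by
      refine ⟨hf.1.rf, ?_, ?_⟩
      · rw [Y23.TT_rf, neg_zero, hf.2.1]
      · intro g hg hg0
        rw [Y23.QQ_rf]
        exact hf.2.2 g hg hg0
    have := uniq hRH ha hf hX w
    rw [Y23.TT_rf] at this
    exact this
  · intro w
    have hX : Xt a ν (fun x => conj (f x)) := by
      refine ⟨hf.1.cj, ?_, ?_⟩
      · rw [Y23.TT_cj, map_zero, hf.2.1, map_one]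
      · intro g hg hg0
        rw [Y23.QQ_cj]
        exact hf.2.2 g hg hg0
    have := uniq hRH ha hf hX w
    rw [Y23.TT_cj] at this
    rw [← this, Complex.conj_conj]

end Pool.Agent.Q38.EX
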